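import Pool.Agent.Helper14.FO.Defs

/-! MP_190084_co: spectral certificate of cube graphs. -/

set_option autoImplicit false

namespace Pool.Agent.Helper38.FO

open Finset Pool.Agent.Helper14.FO

/-- character sums -/
noncomputable def bceA (N : ℕ) (S : Finset (Fin N)) (k : ℕ) : ℝ :=
  ∑ T ∈ powersetCard k (univ : Finset (Fin N)), (-1 : ℝ) ^ (S ∩ T).card

theorem bce_prod {N : ℕ} (S Z : Finset (Fin N)) :
    (∏ i ∈ S, (if i ∈ Z then (-1 : ℝ) else 1)) = (-1 : ℝ) ^ (S ∩ Z).card := by
  rw [Finset.prod_ite, Finset.prod_const, Finset.prod_const_one, mul_one,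
    Finset.filter_mem_eq_inter]

theorem bce_orth {N : ℕ} (Z T : Finset (Fin N)) :
    (∑ S : Finset (Fin N), (-1 : ℝ) ^ (S ∩ Z).card * (-1 : ℝ) ^ (S ∩ T).card) =
      if Z = T then (2 : ℝ) ^ N else 0 := by
  have h1 : ∀ S : Finset (Fin N), (-1 : ℝ) ^ (S ∩ Z).card * (-1 : ℝ) ^ (S ∩ T).card =
      ∏ i ∈ S, ((if i ∈ Z then (-1 : ℝ) else 1) * (if i ∈ T then (-1 : ℝ) else 1)) := by
    intro S
    rw [Finset.prod_mul_distrib, bce_prod, bce_prod]
  rw [Finset.sum_congr rfl fun S _ => h1 S, ← Finset.powerset_univ, ← Finset.prod_one_add]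
  split_ifs with h
  · subst h
    have h2 : ∀ i ∈ (univ : Finset (Fin N)), 1 + (if i ∈ Z then (-1 : ℝ) else 1) *
        (if i ∈ Z then (-1 : ℝ) else 1) = 2 := by
      intro i _
      split_ifs <;> norm_num
    rw [Finset.prod_congr rfl h2, Finset.prod_const, Finset.card_univ, Fintype.card_fin]
  · have h2 : ∃ i, ¬ (i ∈ Z ↔ i ∈ T) := by
      by_contra hc
      push Not at hc
      exact h (Finset.ext hc)
    obtain ⟨i, hi⟩ := h2
    refine Finset.prod_eq_zero (Finset.mem_univ i) ?_
    by_cases h3 : i ∈ Z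
    · by_cases h4 : i ∈ T
      · exact absurd (iff_of_true h3 h4) hi
      · rw [if_pos h3, if_neg h4]
        norm_num
    · by_cases h4 : i ∈ T
      · rw [if_neg h3, if_pos h4]
        norm_num
      · exact absurd (iff_of_false h3 h4) hi

theorem bce_compl {N : ℕ} (S : Finset (Fin N)) {k : ℕ} (hk : k ≤ N) :
    bceA N S (N - k) = (-1 : ℝ) ^ S.card * bceA N S k := by
  unfold bceA
  rw [Finset.mul_sum]
  refine Finset.sum_nbij' (fun T => Tᶜ) (fun T => Tᶜ) ?_ ?_ ?_ ?_ ?_
  · intro T hT
    rw [mem_powersetCard] at hT ⊢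
    refine ⟨subset_univ _, ?_⟩
    rw [card_compl, Fintype.card_fin, hT.2]
    omega
  · intro T hT
    rw [mem_powersetCard] at hT ⊢
    refine ⟨subset_univ _, ?_⟩
    rw [card_compl, Fintype.card_fin, hT.2]
  · intro T _
    exact compl_compl T
  · intro T _
    exact compl_compl T
  · intro T _
    have h1 : (S ∩ T).card + (S ∩ Tᶜ).card = S.card := by
      rw [← Finset.card_union_of_disjoint, ← Finset.inter_union_distrib_left,
        Finset.union_compl, Finset.inter_univ]
      exact Disjoint.mono inter_subset_right inter_subset_right disjoint_compl_right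
    rw [← h1, pow_add, mul_assoc, ← pow_add, ← two_mul, pow_mul, neg_one_sq, one_pow, mul_one]

theorem bce_complS {N : ℕ} (S : Finset (Fin N)) (k : ℕ) :
    bceA N Sᶜ k = (-1 : ℝ) ^ k * bceA N S k := by
  unfold bceA
  rw [Finset.mul_sum]
  refine Finset.sum_congr rfl fun T hT => ?_
  rw [mem_powersetCard] at hT
  have h1 : (Sᶜ ∩ T).card + (S ∩ T).card = T.card := by
    rw [← Finset.card_union_of_disjoint, ← Finset.union_inter_distrib_right,
      Finset.union_comm, Finset.union_compl, Finset.univ_inter]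
    exact Disjoint.mono inter_subset_left inter_subset_left disjoint_compl_left
  rw [← hT.2, ← h1, pow_add, mul_assoc, ← pow_add, ← two_mul, pow_mul, neg_one_sq, one_pow,
    mul_one]

theorem bce_empty {N : ℕ} (k : ℕ) : bceA N ∅ k = N.choose k := by
  unfold bceA
  rw [Finset.sum_congr rfl (g := fun _ => (1 : ℝ)) fun T _ => by
    rw [Finset.empty_inter, Finset.card_empty, pow_zero]]
  rw [Finset.sum_const, Finset.card_powersetCard, Finset.card_univ, Fintype.card_fin,
    nsmul_eq_mul, mul_one]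

theorem bce_one {n : ℕ} (s : Fin (n + 1)) (k : ℕ) :
    bceA (n + 1) {s} (k + 1) =
      ((n + 1).choose (k + 1) : ℝ) * (1 - 2 * ((k + 1 : ℕ) : ℝ) / ((n + 1 : ℕ) : ℝ)) := by
  unfold bceA
  have hu : (univ : Finset (Fin (n + 1))) = insert s (univ.erase s) :=
    (insert_erase (mem_univ s)).symm
  have hc : ((univ : Finset (Fin (n + 1))).erase s).card = n := by
    rw [card_erase_of_mem (mem_univ s), Finset.card_univ, Fintype.card_fin, Nat.add_sub_cancel]
  rw [hu, powersetCard_succ_insert (notMem_erase s univ) k, Finset.sum_union]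
  · rw [Finset.sum_image]
    · rw [Finset.sum_congr rfl (g := fun _ => (1 : ℝ)) fun T hT => by
          rw [mem_powersetCard] at hT
          have h1 : s ∉ T := fun h => notMem_erase s univ (hT.1 h)
          rw [Finset.singleton_inter_of_notMem h1, Finset.card_empty, pow_zero],
        Finset.sum_congr rfl (s₁ := powersetCard k (univ.erase s)) (g := fun _ => (-1 : ℝ))
          fun T hT => by
            rw [Finset.singleton_inter_of_mem (mem_insert_self s T), Finset.card_singleton,
              pow_one]]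
      rw [Finset.sum_const, Finset.sum_const, Finset.card_powersetCard,
        Finset.card_powersetCard, hc, nsmul_eq_mul, nsmul_eq_mul]
      have h1 : (((n + 1).choose (k + 1) : ℕ) : ℝ) = (n.choose k : ℝ) + (n.choose (k + 1) : ℝ) := by
        rw [Nat.choose_succ_succ]
        push_cast
        rfl
      have h2 : ((n + 1 : ℕ) : ℝ) * (n.choose k : ℝ) =
          ((n + 1).choose (k + 1) : ℝ) * ((k + 1 : ℕ) : ℝ) := by
        exact_mod_cast Nat.add_one_mul_choose_eq n k
      have h3 : ((n + 1 : ℕ) : ℝ) ≠ 0 := by positivity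
      field_simp
      rw [h1] at h2 ⊢
      linear_combination (-2) * h2
    · intro T hT T' hT' h
      have h1 : s ∉ T := fun h => notMem_erase s univ ((mem_powersetCard.1 hT).1 h)
      have h2 : s ∉ T' := fun h => notMem_erase s univ ((mem_powersetCard.1 hT').1 h)
      have h3 : insert s T = insert s T' := h
      rw [← erase_insert h1, h3, erase_insert h2]
  · rw [Finset.disjoint_left]
    intro T hT hT'
    rw [mem_image] at hT'
    obtain ⟨T', -, rfl⟩ := hT'
    exact notMem_erase s univ ((mem_powersetCard.1 hT).1 (mem_insert_self s T'))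

theorem bce_M {N r : ℕ} (hr : 1 ≤ r) (h8 : 8 * r ≤ N) :
    0 ≤ 1 - 2 * (r : ℝ) / N ∧ 1 - 2 * (r : ℝ) / N ≤ 1 := by
  have hN : (0 : ℝ) < N := by
    have h1 : 0 < N := by omega
    exact_mod_cast h1
  have h1 : 8 * (r : ℝ) ≤ N := by exact_mod_cast h8
  have h2 : 2 * (r : ℝ) / N ≤ 1 := by
    rw [div_le_one hN]
    have h3 : (0 : ℝ) ≤ r := Nat.cast_nonneg r
    linarith
  have h3 : 0 ≤ 2 * (r : ℝ) / N := by positivity
  exact ⟨by linarith, by linarith⟩

theorem bce_small {N r : ℕ} (hr : 1 ≤ r) (h8 : 8 * r ≤ N) (S : Finset (Fin N))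
    (hS : S.card ≤ 1) :
    -((N.choose r : ℝ) * (1 - 2 * (r : ℝ) / N)) ≤ bceA N S (N - r) ∧
      bceA N S (N - r) ≤ N.choose r := by
  obtain ⟨m0, m1⟩ := bce_M hr h8
  have hc : (0 : ℝ) ≤ N.choose r := Nat.cast_nonneg _
  have hcm : 0 ≤ (N.choose r : ℝ) * (1 - 2 * (r : ℝ) / N) := mul_nonneg hc m0
  have h01 : S.card = 0 ∨ S.card = 1 := by omega
  rcases h01 with h0 | h1
  · rw [Finset.card_eq_zero] at h0
    subst h0
    rw [bce_empty, Nat.choose_symm (by omega)]
    exact ⟨by linarith, le_refl _⟩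
  · obtain ⟨n, rfl⟩ : ∃ n, N = n + 1 := ⟨N - 1, by omega⟩
    obtain ⟨k, rfl⟩ : ∃ k, r = k + 1 := ⟨r - 1, by omega⟩
    obtain ⟨s, rfl⟩ := Finset.card_eq_one.1 h1
    rw [bce_compl {s} (by omega : k + 1 ≤ n + 1), bce_one, Finset.card_singleton, pow_one]
    exact ⟨by linarith, by linarith⟩

theorem bce_bound (h : ST_KRW) {N r : ℕ} (hr : 1 ≤ r) (h8 : 8 * r ≤ N) (he : Even (N - r))
    (S : Finset (Fin N)) :
    -((N.choose r : ℝ) * (1 - 2 * (r : ℝ) / N)) ≤ bceA N S (N - r) ∧
      bceA N S (N - r) ≤ N.choose r := by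
  by_cases h1 : S.card ≤ 1
  · exact bce_small hr h8 S h1
  by_cases h2 : Sᶜ.card ≤ 1
  · have h3 := bce_complS Sᶜ (N - r)
    rw [compl_compl, he.neg_one_pow, one_mul] at h3
    rw [h3]
    exact bce_small hr h8 Sᶜ h2
  · obtain ⟨m0, m1⟩ := bce_M hr h8
    have hc : (0 : ℝ) ≤ N.choose r := Nat.cast_nonneg _
    have hcm : (N.choose r : ℝ) * (1 - 2 * (r : ℝ) / N) ≤ N.choose r :=
      mul_le_of_le_one_right hc m1
    rw [card_compl, Fintype.card_fin] at h2
    have h3 : |bceA N S r| ≤ (N.choose r : ℝ) * (1 - 2 * (r : ℝ) / N) :=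
      h N r hr h8 S (by omega) (by omega)
    have h4 : |bceA N S (N - r)| = |bceA N S r| := by
      rw [bce_compl S (by omega : r ≤ N), abs_mul, abs_pow, abs_neg, abs_one, one_pow, one_mul]
    rw [← h4, abs_le] at h3
    exact ⟨h3.1, h3.2.trans hcm⟩

/-- the character of `S` -/
noncomputable def bceX {N : ℕ} (S : Finset (Fin N)) (x : Fin N → ZMod 2) : ℝ :=
  ∏ i ∈ S, (if x i = 0 then (1 : ℝ) else -1)

theorem bce_z2 (a b : ZMod 2) : (if a = 0 then (1 : ℝ) else -1) * (if b = 0 then (1 : ℝ) else -1) =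
    if a ≠ b then -1 else 1 := by
  have h1 : ∀ a : ZMod 2, a ≠ 0 → a = 1 := by decide
  have h01 : (1 : ZMod 2) ≠ 0 := by decide
  by_cases ha : a = 0
  · by_cases hb : b = 0
    · rw [if_pos ha, if_pos hb, if_neg (fun h => h (ha.trans hb.symm)), mul_one]
    · rw [if_pos ha, if_neg hb, if_pos (fun h => hb (h.symm.trans ha)), one_mul]
  · by_cases hb : b = 0
    · rw [if_neg ha, if_pos hb, if_pos (fun h => ha (h.trans hb)), mul_one]
    · rw [if_neg ha, if_neg hb, if_neg (fun h => h ((h1 a ha).trans (h1 b hb).symm))]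
      norm_num

theorem bce_XX {N : ℕ} (S : Finset (Fin N)) (x y : Fin N → ZMod 2) :
    bceX S x * bceX S y = (-1 : ℝ) ^ (S ∩ univ.filter fun i => x i ≠ y i).card := by
  unfold bceX
  rw [← Finset.prod_mul_distrib, ← bce_prod]
  refine Finset.prod_congr rfl fun i _ => ?_
  rw [bce_z2]
  simp only [mem_filter, mem_univ, true_and]

/-- nonnegative combinations of characters -/
noncomputable def bceB {N : ℕ} (c : Finset (Fin N) → ℝ) :
    Matrix (Fin N → ZMod 2) (Fin N → ZMod 2) ℝ :=
  ∑ S : Finset (Fin N), c S • Matrix.vecMulVec (bceX S) (star (bceX S))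

theorem bceB_psd {N : ℕ} {c : Finset (Fin N) → ℝ} (hc : ∀ S, 0 ≤ c S) : (bceB c).PosSemidef :=
  Matrix.posSemidef_sum _ fun S _ => (Matrix.posSemidef_vecMulVec_self_star (bceX S)).smul (hc S)

theorem bceB_app {N : ℕ} (c : Finset (Fin N) → ℝ) (x y : Fin N → ZMod 2) :
    bceB c x y = ∑ S : Finset (Fin N), c S * (-1 : ℝ) ^ (S ∩ univ.filter fun i => x i ≠ y i).card := by
  unfold bceB
  rw [Matrix.sum_apply]
  refine Finset.sum_congr rfl fun S _ => ?_
  rw [Matrix.smul_apply, Matrix.vecMulVec_apply, smul_eq_mul, ← bce_XX]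
  rfl

/-- the identity matrix -/
theorem bce_id {N : ℕ} (x y : Fin N → ZMod 2) :
    (∑ S : Finset (Fin N), (-1 : ℝ) ^ (S ∩ univ.filter fun i => x i ≠ y i).card) =
      (2 : ℝ) ^ N * (1 : Matrix (Fin N → ZMod 2) (Fin N → ZMod 2) ℝ) x y := by
  have h1 := bce_orth (univ.filter fun i => x i ≠ y i) (∅ : Finset (Fin N))
  rw [Finset.sum_congr rfl (g := fun S => (-1 : ℝ) ^ (S ∩ univ.filter fun i => x i ≠ y i).card)
    fun S _ => by rw [Finset.inter_empty, Finset.card_empty, pow_zero, mul_one]] at h1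
  rw [h1, Matrix.one_apply]
  by_cases h : x = y
  · subst h
    simp
  · rw [if_neg h, mul_zero, if_neg]
    intro h2
    apply h
    funext i
    by_contra h3
    have h4 : i ∈ univ.filter fun i => x i ≠ y i := by
      rw [mem_filter]
      exact ⟨mem_univ i, h3⟩
    rw [h2] at h4
    exact absurd h4 (notMem_empty i)

/-- the adjacency matrix -/
theorem bce_adj {N : ℕ} (D : ℕ) (x y : Fin N → ZMod 2) :
    (∑ S : Finset (Fin N), bceA N S D * (-1 : ℝ) ^ (S ∩ univ.filter fun i => x i ≠ y i).card) =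
      if hammingDist x y = D then (2 : ℝ) ^ N else 0 := by
  have h1 : ∀ S : Finset (Fin N), bceA N S D *
      (-1 : ℝ) ^ (S ∩ univ.filter fun i => x i ≠ y i).card =
      ∑ T ∈ powersetCard D (univ : Finset (Fin N)),
        (-1 : ℝ) ^ (S ∩ T).card * (-1 : ℝ) ^ (S ∩ univ.filter fun i => x i ≠ y i).card := by
    intro S
    unfold bceA
    rw [Finset.sum_mul]
  rw [Finset.sum_congr rfl fun S _ => h1 S, Finset.sum_comm,
    Finset.sum_congr rfl fun T _ => bce_orth T (univ.filter fun i => x i ≠ y i)]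
  rw [Finset.sum_ite_eq' (powersetCard D univ) (univ.filter fun i => x i ≠ y i)
    (fun _ => (2 : ℝ) ^ N)]
  refine if_congr ?_ rfl rfl
  rw [mem_powersetCard]
  exact ⟨fun h => h.2, fun h => ⟨subset_univ _, h⟩⟩

/-- number of vertices at distance `D` -/
theorem bce_row {N : ℕ} (D : ℕ) (x : Fin N → ZMod 2) :
    (∑ y : Fin N → ZMod 2, if hammingDist x y = D then (1 : ℝ) else 0) = N.choose D := by
  have h1 : (∑ y : Fin N → ZMod 2, if hammingDist x y = D then (1 : ℝ) else 0) =
      ∑ T ∈ powersetCard D (univ : Finset (Fin N)), (1 : ℝ) := by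
    rw [← Finset.sum_filter]
    refine Finset.sum_nbij' (fun y => univ.filter fun i => x i ≠ y i)
      (fun T => fun i => if i ∈ T then x i + 1 else x i) ?_ ?_ ?_ ?_ ?_
    · intro y hy
      rw [mem_filter] at hy
      rw [mem_powersetCard]
      exact ⟨subset_univ _, hy.2⟩
    · intro T hT
      rw [mem_powersetCard] at hT
      rw [mem_filter]
      refine ⟨mem_univ _, ?_⟩
      have h2 : (univ.filter fun i => x i ≠ if i ∈ T then x i + 1 else x i) = T := by
        ext i
        rw [mem_filter]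
        by_cases hi : i ∈ T
        · rw [if_pos hi]
          simp [hi]
        · rw [if_neg hi]
          simp [hi]
      have h3 : hammingDist x (fun i => if i ∈ T then x i + 1 else x i) =
        (univ.filter fun i => x i ≠ if i ∈ T then x i + 1 else x i).card := rfl
      rw [h3, h2, hT.2]
    · intro y _
      funext i
      have h4 : ∀ a b : ZMod 2, (if a ≠ b then a + 1 else a) = b := by decide
      have h5 : (if i ∈ univ.filter fun i => x i ≠ y i then x i + 1 else x i) =
          if x i ≠ y i then x i + 1 else x i := by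
        refine if_congr ?_ rfl rfl
        rw [mem_filter]
        exact ⟨fun h => h.2, fun h => ⟨mem_univ _, h⟩⟩
      exact h5.trans (h4 (x i) (y i))
    · intro T _
      ext i
      rw [mem_filter]
      beta_reduce
      by_cases hi : i ∈ T
      · rw [if_pos hi]
        simp [hi]
      · rw [if_neg hi]
        simp [hi]
    · intro y _
      rfl
  rw [h1, Finset.sum_const, Finset.card_powersetCard, Finset.card_univ, Fintype.card_fin,
    nsmul_eq_mul, mul_one]

/-- the normalised adjacency matrix -/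
noncomputable def bceM (N r : ℕ) : Matrix (Fin N → ZMod 2) (Fin N → ZMod 2) ℝ :=
  Matrix.of fun x y => if hammingDist x y = N - r then 1 / (N.choose r : ℝ) else 0

theorem bceM_app (N r : ℕ) (x y : Fin N → ZMod 2) :
    bceM N r x y = if hammingDist x y = N - r then 1 / (N.choose r : ℝ) else 0 := rfl

theorem st_BCE (h : ST_KRW) : ST_BCE := by
  intro N r hr h8 he
  have hrN : r ≤ N := by omega
  have hCpos : (0 : ℝ) < N.choose r := by exact_mod_cast Nat.choose_pos hrN
  have h2N : (0 : ℝ) < (2 : ℝ) ^ N := by positivity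
  have hb := bce_bound h hr h8 he
  obtain ⟨M, hM⟩ : ∃ M : ℝ, M = 1 - 2 * (r : ℝ) / N := ⟨_, rfl⟩
  rw [← hM]
  simp only [← hM] at hb
  refine ⟨bceM N r, ?_, ?_, ?_, ?_⟩
  · intro x y hxy
    rw [bceM_app]
    refine if_neg fun hd => hxy ⟨?_, hd⟩
    rintro rfl
    rw [hammingDist_self] at hd
    omega
  · intro x
    have h1 : ∀ y : Fin N → ZMod 2, bceM N r x y =
        (if hammingDist x y = N - r then (1 : ℝ) else 0) * (1 / (N.choose r : ℝ)) := by
      intro y
      rw [bceM_app]
      split_ifs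
      · rw [one_mul]
      · rw [zero_mul]
    rw [Finset.sum_congr rfl fun y _ => h1 y, ← Finset.sum_mul, bce_row, Nat.choose_symm hrN]
    field_simp
  · have h1 : (bceM N r + M • (1 : Matrix (Fin N → ZMod 2) (Fin N → ZMod 2) ℝ)) =
        bceB fun S => (bceA N S (N - r) + M * N.choose r) * (1 / ((2 : ℝ) ^ N * N.choose r)) := by
      ext x y
      rw [bceB_app, Matrix.add_apply, Matrix.smul_apply, smul_eq_mul]
      have h2 : ∀ S : Finset (Fin N), (bceA N S (N - r) + M * N.choose r) *
          (1 / ((2 : ℝ) ^ N * N.choose r)) *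
          (-1 : ℝ) ^ (S ∩ univ.filter fun i => x i ≠ y i).card =
          (1 / ((2 : ℝ) ^ N * N.choose r)) * (bceA N S (N - r) *
            (-1 : ℝ) ^ (S ∩ univ.filter fun i => x i ≠ y i).card) +
          (1 / ((2 : ℝ) ^ N * N.choose r)) * (M * N.choose r) *
            (-1 : ℝ) ^ (S ∩ univ.filter fun i => x i ≠ y i).card := by
        intro S
        ring
      rw [Finset.sum_congr rfl fun S _ => h2 S, Finset.sum_add_distrib, ← Finset.mul_sum,
        ← Finset.mul_sum, bce_adj, bce_id]
      rw [bceM_app]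
      congr 1
      · split_ifs
        · field_simp
        · rw [mul_zero]
      · field_simp
    rw [h1]
    refine bceB_psd fun S => mul_nonneg ?_ (by positivity)
    have := (hb S).1
    linarith
  · have h1 : ((1 : Matrix (Fin N → ZMod 2) (Fin N → ZMod 2) ℝ) - bceM N r) =
        bceB fun S => (N.choose r - bceA N S (N - r)) * (1 / ((2 : ℝ) ^ N * N.choose r)) := by
      ext x y
      rw [bceB_app, Matrix.sub_apply]
      have h2 : ∀ S : Finset (Fin N), ((N.choose r : ℝ) - bceA N S (N - r)) *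
          (1 / ((2 : ℝ) ^ N * N.choose r)) *
          (-1 : ℝ) ^ (S ∩ univ.filter fun i => x i ≠ y i).card =
          (1 / ((2 : ℝ) ^ N * N.choose r)) * (N.choose r : ℝ) *
            (-1 : ℝ) ^ (S ∩ univ.filter fun i => x i ≠ y i).card -
          (1 / ((2 : ℝ) ^ N * N.choose r)) * (bceA N S (N - r) *
            (-1 : ℝ) ^ (S ∩ univ.filter fun i => x i ≠ y i).card) := by
        intro S
        ring
      rw [Finset.sum_congr rfl fun S _ => h2 S, Finset.sum_sub_distrib, ← Finset.mul_sum,
        ← Finset.mul_sum, bce_adj, bce_id]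
      rw [bceM_app]
      congr 1
      · field_simp
      · split_ifs
        · field_simp
        · rw [mul_zero]
    rw [h1]
    refine bceB_psd fun S => mul_nonneg ?_ (by positivity)
    have := (hb S).2
    linarith

end Pool.Agent.Helper38.FO
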