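import Pool.Agent.Helper14.FO.Defs

/-! MP_190084_co: random independent sets on a class. -/

set_option autoImplicit false

namespace Pool.Agent.Helper38.FO

open Finset Pool.Agent.Helper14.FO

theorem clc_good {ι : Type} [Fintype ι] [DecidableEq ι] (J : ι → Type) [∀ i, Fintype (J i)]
    [∀ i, DecidableEq (J i)] (i0 : ι) (A : Finset (J i0)) {c : ℝ}
    (hA : (Fintype.card (J i0) : ℝ) ≤ c * A.card) :
    (Fintype.card (∀ i, J i) : ℝ) ≤
      c * ((univ : Finset (∀ i, J i)).filter fun t => t i0 ∈ A).card := by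
  have h1 : ((univ : Finset (∀ i, J i)).filter fun t => t i0 ∈ A) =
      Fintype.piFinset (Function.update (fun i => (univ : Finset (J i))) i0 A) := by
    ext t
    rw [mem_filter, Fintype.mem_piFinset]
    constructor
    · rintro ⟨-, h⟩ i
      by_cases hi : i = i0
      · subst hi
        rw [Function.update_self]
        exact h
      · rw [Function.update_of_ne hi]
        exact mem_univ _
    · intro h
      refine ⟨mem_univ _, ?_⟩
      have h2 := h i0
      rw [Function.update_self] at h2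
      exact h2
  have h2 : (Fintype.card (∀ i, J i) : ℝ) =
      (Fintype.card (J i0) : ℝ) * ∏ i ∈ univ.erase i0, (Fintype.card (J i) : ℝ) := by
    rw [Fintype.card_pi]
    push_cast
    exact (Finset.mul_prod_erase univ (fun i => (Fintype.card (J i) : ℝ)) (mem_univ i0)).symm
  have h3 : (((univ : Finset (∀ i, J i)).filter fun t => t i0 ∈ A).card : ℝ) =
      (A.card : ℝ) * ∏ i ∈ univ.erase i0, (Fintype.card (J i) : ℝ) := by
    rw [h1, Fintype.card_piFinset]
    push_cast
    rw [← Finset.mul_prod_erase univ _ (mem_univ i0), Function.update_self]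
    congr 1
    refine Finset.prod_congr rfl fun i hi => ?_
    rw [Function.update_of_ne (ne_of_mem_erase hi), Finset.card_univ]
  rw [h2, h3, ← mul_assoc]
  refine mul_le_mul_of_nonneg_right hA (Finset.prod_nonneg fun i _ => Nat.cast_nonneg _)

theorem st_CLC (h : ST_IND) : ST_CLC := by
  intro V _ _ X χa hχa hX ι _ _ W Y χ hχ hY n U f T hT hadj hprod
  classical
  choose J hJf hJn I hI hJc using hY
  -- good choices for one coordinate
  obtain ⟨G, hG⟩ : ∃ G : (Σ i, W i) → Finset (∀ i, J i),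
      ∀ w, G w = (univ : Finset (∀ i, J i)).filter fun t => w.2 ∈ I w.1 (t w.1) := ⟨_, fun _ => rfl⟩
  have hGc : ∀ w, (Fintype.card (∀ i, J i) : ℝ) ≤ χ w.1 * (G w).card := by
    intro w
    have h1 := hJc w.1 w.2
    have h2 : (Set.ncard {j | w.2 ∈ I w.1 j}) =
        ((univ : Finset (J w.1)).filter fun j => w.2 ∈ I w.1 j).card := by
      rw [← Set.ncard_coe_finset]
      congr 1
      ext j
      simp
    rw [h2] at h1
    have h3 := clc_good J w.1 ((univ : Finset (J w.1)).filter fun j => w.2 ∈ I w.1 j) h1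
    rw [hG w]
    refine h3.trans (le_of_eq ?_)
    congr 3
    ext t
    simp
  -- sum over all choices
  obtain ⟨S, hS⟩ : ∃ S : (Fin n → ∀ i, J i) → Finset (Fin n → V),
      ∀ ω, S ω = U.filter fun u => ∀ k, ω k ∈ G (f u k) := ⟨_, fun _ => rfl⟩
  have hSi : ∀ ω, χa ^ n * (S ω).card ≤ (Fintype.card V : ℝ) ^ n := by
    intro ω
    refine h V X χa hχa hX n (S ω) ?_
    intro u hu v hv k hk
    rw [hS, mem_filter] at hu hv
    obtain ⟨i, i', x, y, e1, e2, e3⟩ := hadj u hu.1 v hv.1 ⟨k, hk⟩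
    have a1 := hu.2 i
    have a2 := hv.2 i
    rw [hG, mem_filter, e1] at a1
    rw [hG, mem_filter, e2] at a2
    exact hI i' _ x a1.2 y a2.2 e3
  have hsum : (∑ ω : Fin n → ∀ i, J i, ((S ω).card : ℝ)) =
      ∑ u ∈ U, (((univ : Finset (Fin n → ∀ i, J i)).filter fun ω => ∀ k, ω k ∈ G (f u k)).card : ℝ) := by
    have h1 : ∀ ω, ((S ω).card : ℝ) = ∑ u ∈ U, if ∀ k, ω k ∈ G (f u k) then (1 : ℝ) else 0 := by
      intro ω
      rw [hS, Finset.card_filter]
      push_cast
      rfl
    rw [Finset.sum_congr rfl fun ω _ => h1 ω, Finset.sum_comm]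
    refine Finset.sum_congr rfl fun u _ => ?_
    rw [Finset.card_filter]
    push_cast
    rfl
  have hgood : ∀ u ∈ U, (Fintype.card (∀ i, J i) : ℝ) ^ n ≤
      T * (((univ : Finset (Fin n → ∀ i, J i)).filter fun ω => ∀ k, ω k ∈ G (f u k)).card : ℝ) := by
    intro u hu
    have h1 : ((univ : Finset (Fin n → ∀ i, J i)).filter fun ω => ∀ k, ω k ∈ G (f u k)) =
        Fintype.piFinset fun k => G (f u k) := by
      ext ω
      rw [mem_filter, Fintype.mem_piFinset]
      exact ⟨fun h => h.2, fun h => ⟨mem_univ _, h⟩⟩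
    rw [h1, Fintype.card_piFinset]
    push_cast
    have h2 : (Fintype.card (∀ i, J i) : ℝ) ^ n ≤ ∏ k : Fin n, (χ (f u k).1 * (G (f u k)).card) := by
      have h3 : (Fintype.card (∀ i, J i) : ℝ) ^ n =
          ∏ _k : Fin n, (Fintype.card (∀ i, J i) : ℝ) := by
        rw [Finset.prod_const, Finset.card_univ, Fintype.card_fin]
      rw [h3]
      exact Finset.prod_le_prod (fun k _ => Nat.cast_nonneg _) fun k _ => hGc (f u k)
    rw [Finset.prod_mul_distrib] at h2
    exact h2.trans (mul_le_mul_of_nonneg_right (hprod u hu)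
      (Finset.prod_nonneg fun k _ => Nat.cast_nonneg _))
  have h1 : (U.card : ℝ) * (Fintype.card (∀ i, J i) : ℝ) ^ n ≤
      T * ∑ ω : Fin n → ∀ i, J i, ((S ω).card : ℝ) := by
    rw [hsum, Finset.mul_sum, ← nsmul_eq_mul, ← Finset.sum_const]
    exact Finset.sum_le_sum hgood
  have h2 : χa ^ n * ∑ ω : Fin n → ∀ i, J i, ((S ω).card : ℝ) ≤
      (Fintype.card (∀ i, J i) : ℝ) ^ n * (Fintype.card V : ℝ) ^ n := by
    rw [Finset.mul_sum]
    refine (Finset.sum_le_sum fun ω _ => hSi ω).trans (le_of_eq ?_)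
    rw [Finset.sum_const, Finset.card_univ, nsmul_eq_mul, Fintype.card_fun, Fintype.card_fin]
    push_cast
    rfl
  have hpos : (0 : ℝ) < (Fintype.card (∀ i, J i) : ℝ) ^ n := by
    have h3 : 0 < Fintype.card (∀ i, J i) := Fintype.card_pos
    have h4 : (0 : ℝ) < Fintype.card (∀ i, J i) := by exact_mod_cast h3
    exact pow_pos h4 n
  have hχn : (0 : ℝ) ≤ χa ^ n := pow_nonneg hχa.le n
  rw [div_pow, ← mul_div_assoc]
  refine div_le_of_le_mul₀ (pow_nonneg (Nat.cast_nonneg _) n) hT ?_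
  have h3 : (U.card : ℝ) * (Fintype.card (∀ i, J i) : ℝ) ^ n * χa ^ n ≤
      T * ((Fintype.card (∀ i, J i) : ℝ) ^ n * (Fintype.card V : ℝ) ^ n) := by
    calc (U.card : ℝ) * (Fintype.card (∀ i, J i) : ℝ) ^ n * χa ^ n
        ≤ (T * ∑ ω : Fin n → ∀ i, J i, ((S ω).card : ℝ)) * χa ^ n :=
          mul_le_mul_of_nonneg_right h1 hχn
      _ = T * (χa ^ n * ∑ ω : Fin n → ∀ i, J i, ((S ω).card : ℝ)) := by ring
      _ ≤ _ := mul_le_mul_of_nonneg_left h2 hT
  have h4 : (Fintype.card (∀ i, J i) : ℝ) ^ n * ((U.card : ℝ) * χa ^ n) ≤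
      (Fintype.card (∀ i, J i) : ℝ) ^ n * (T * (Fintype.card V : ℝ) ^ n) := by
    linarith only [h3]
  exact le_of_mul_le_mul_left h4 hpos

end Pool.Agent.Helper38.FO
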