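import Pool.Agent.Helper14.FO.Defs2

set_option autoImplicit false

namespace Pool.Agent.Helper38.FO

open Finset Pool.Agent.Helper14.FO

theorem cu2_prod {N : ℕ} (g : Fin N → Bool → ℝ) :
    ∑ B : Fin N → Bool, ∏ i, g i (B i) = ∏ i, ∑ b, g i b := by
  rw [Finset.prod_univ_sum, Fintype.piFinset_univ]

/-- second moment of a sum of independent centred variables -/
theorem cu2_var {N : ℕ} (k f : Fin N → Bool → ℝ) (hk : ∀ i, ∑ b, k i b = 1)
    (hf : ∀ i, ∑ b, k i b * f i b = 0) :
    ∑ B : Fin N → Bool, (∏ i, k i (B i)) * (∑ i, f i (B i)) ^ 2 =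
      ∑ i, ∑ b, k i b * f i b ^ 2 := by
  have h1 : ∀ i j : Fin N, ∑ B : Fin N → Bool, (∏ l, k l (B l)) * (f i (B i) * f j (B j)) =
      if i = j then ∑ b, k i b * f i b ^ 2 else 0 := by
    intro i j
    have e1 : ∀ B : Fin N → Bool, (∏ l, k l (B l)) * (f i (B i) * f j (B j)) =
        ∏ l, (k l (B l) * ((if l = i then f l (B l) else 1) * (if l = j then f l (B l) else 1))) := by
      intro B
      rw [Finset.prod_mul_distrib, Finset.prod_mul_distrib, Finset.prod_ite_eq' univ i,
        Finset.prod_ite_eq' univ j, if_pos (mem_univ _), if_pos (mem_univ _)]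
    rw [Finset.sum_congr rfl fun B _ => e1 B, cu2_prod fun l b =>
      k l b * ((if l = i then f l b else 1) * (if l = j then f l b else 1))]
    by_cases hij : i = j
    · rw [if_pos hij]
      subst hij
      rw [Finset.prod_eq_single i]
      · apply Finset.sum_congr rfl
        intro b _
        rw [if_pos rfl]
        ring
      · intro l _ hl
        refine Eq.trans ?_ (hk l)
        apply Finset.sum_congr rfl
        intro b _
        rw [if_neg hl]
        ring
      · intro h
        exact absurd (mem_univ _) h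
    · rw [if_neg hij]
      apply Finset.prod_eq_zero (mem_univ i)
      refine Eq.trans ?_ (hf i)
      apply Finset.sum_congr rfl
      intro b _
      rw [if_pos rfl, if_neg hij]
      ring
  have h2 : ∀ B : Fin N → Bool, (∏ i, k i (B i)) * (∑ i, f i (B i)) ^ 2 =
      ∑ i, ∑ j, (∏ l, k l (B l)) * (f i (B i) * f j (B j)) := by
    intro B
    rw [sq, Finset.sum_mul_sum, Finset.mul_sum]
    apply Finset.sum_congr rfl
    intro i _
    rw [Finset.mul_sum]
  rw [Finset.sum_congr rfl fun B _ => h2 B, Finset.sum_comm]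
  apply Finset.sum_congr rfl
  intro i _
  rw [Finset.sum_comm, Finset.sum_congr rfl fun j _ => h1 i j, Finset.sum_ite_eq,
    if_pos (mem_univ _)]

theorem cu2_card {N : ℕ} (B : Fin N → Bool) :
    (CuN B : ℝ) = ∑ i, if B i = true then (1 : ℝ) else 0 := by
  unfold CuN
  rw [Finset.card_filter]
  push_cast
  rfl

theorem st_CU2 : ST_CU2 := by
  intro t δ ε ht ht2 hδ hε
  obtain ⟨t', ht'⟩ : ∃ t', t' = t / (1 - t) := ⟨_, rfl⟩
  have h1t : 0 < 1 - t := by linarith
  have e1 : (1 - t) * t' = t := by rw [ht']; field_simp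
  have t0 : 0 < t' := by rw [ht']; positivity
  have t1 : t' < 1 := by rw [ht', div_lt_one h1t]; linarith
  obtain ⟨c, hc⟩ : ∃ c, c = δ * (1 - t') := ⟨_, rfl⟩
  have c0 : 0 < c := by rw [hc]; exact mul_pos hδ (by linarith)
  refine ⟨⌈1 / (ε * c ^ 2)⌉₊ + 1, fun N hN A hA => ?_⟩
  have hN0 : (1 : ℝ) ≤ N := by
    have : 1 ≤ N := by omega
    exact_mod_cast this
  have hN1 : 1 / (ε * c ^ 2) ≤ N := by
    have h1 := Nat.le_ceil (1 / (ε * c ^ 2))
    have h2 : ((⌈1 / (ε * c ^ 2)⌉₊ : ℕ) : ℝ) ≤ N := by
      have : ⌈1 / (ε * c ^ 2)⌉₊ ≤ N := by omega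
      exact_mod_cast this
    linarith
  set k : Fin N → Bool → ℝ := fun i b => if A i = true then (if b = true then 0 else 1) else
    (if b = true then t' else 1 - t') with hkd
  set m : Fin N → ℝ := fun i => if A i = true then 0 else t' with hmd
  set f : Fin N → Bool → ℝ := fun i b => (if b = true then (1 : ℝ) else 0) - m i with hfd
  have k0 : ∀ i b, 0 ≤ k i b := by
    intro i b
    simp only [hkd]
    split_ifs <;> linarith
  have k1 : ∀ i, ∑ b, k i b = 1 := by
    intro i
    simp only [hkd, Fintype.sum_bool]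
    by_cases h1 : A i = true
    · rw [if_pos h1, if_pos h1, if_pos trivial, if_neg Bool.false_ne_true, zero_add]
    · rw [if_neg h1, if_neg h1, if_pos trivial, if_neg Bool.false_ne_true]
      ring
  have kf : ∀ i, ∑ b, k i b * f i b = 0 := by
    intro i
    simp only [hkd, hfd, hmd, Fintype.sum_bool]
    by_cases h1 : A i = true
    · rw [if_pos h1, if_pos h1, if_pos h1, if_pos trivial, if_neg Bool.false_ne_true,
        if_pos trivial, if_neg Bool.false_ne_true]
      ring
    · rw [if_neg h1, if_neg h1, if_neg h1, if_pos trivial, if_neg Bool.false_ne_true,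
        if_pos trivial, if_neg Bool.false_ne_true]
      ring
  have f1 : ∀ i b, f i b ^ 2 ≤ 1 := by
    intro i b
    simp only [hfd, hmd]
    split_ifs <;> nlinarith
  have hE : ∀ B : Fin N → Bool, CuE t N A B = CuW t N A * ∏ i, k i (B i) := by
    intro B
    unfold CuE CuW
    rw [← Finset.prod_mul_distrib]
    apply Finset.prod_congr rfl
    intro i _
    simp only [hkd]
    by_cases h1 : A i = true
    · by_cases h2 : B i = true
      · simp [h1, h2]
      · simp [h1, h2]
    · by_cases h2 : B i = true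
      · simp only [if_neg h1, if_pos h2]
        exact e1.symm
      · simp only [if_neg h1, if_neg h2]
        linarith
  have hm : ∑ i, m i = t' * (N - CuN A) := by
    rw [cu2_card, mul_sub, Finset.mul_sum]
    have e : t' * (N : ℝ) = ∑ _i : Fin N, t' := by
      rw [Finset.sum_const, Finset.card_univ, Fintype.card_fin, nsmul_eq_mul, mul_comm]
    rw [e, ← Finset.sum_sub_distrib]
    apply Finset.sum_congr rfl
    intro i _
    simp only [hmd]
    split_ifs <;> ring
  have hsum : ∀ B : Fin N → Bool, ∑ i, f i (B i) = CuN B - t' * (N - CuN A) := by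
    intro B
    rw [← hm, cu2_card, ← Finset.sum_sub_distrib]
  have hvar := cu2_var k f k1 kf
  have hv2 : ∑ i, ∑ b, k i b * f i b ^ 2 ≤ N := by
    have h1 : ∀ i, ∑ b, k i b * f i b ^ 2 ≤ 1 := by
      intro i
      rw [← k1 i]
      apply Finset.sum_le_sum
      intro b _
      have := mul_le_mul_of_nonneg_left (f1 i b) (k0 i b)
      linarith
    calc ∑ i, ∑ b, k i b * f i b ^ 2 ≤ ∑ _i : Fin N, (1 : ℝ) := Finset.sum_le_sum fun i _ => h1 i
      _ = N := by simp
  have hW : 0 ≤ CuW t N A := by
    unfold CuW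
    apply Finset.prod_nonneg
    intro i _
    split_ifs <;> linarith
  have hbad : ∀ B ∈ univ.filter (fun B : Fin N → Bool => ¬ |(CuN B : ℝ) - t * N| ≤ δ * N),
      (∏ i, k i (B i)) * (c * N) ^ 2 ≤ (∏ i, k i (B i)) * (∑ i, f i (B i)) ^ 2 := by
    intro B hB
    have hB' := (Finset.mem_filter.mp hB).2
    rw [not_le] at hB'
    apply mul_le_mul_of_nonneg_left _ (Finset.prod_nonneg fun i _ => k0 i _)
    rw [hsum B]
    have e2 : (CuN B : ℝ) - t' * (N - CuN A) = (CuN B - t * N) + t' * (CuN A - t * N) := by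
      have e3 : t * N = (1 - t) * t' * N := by rw [e1]
      linear_combination e3
    have h3 : |t' * ((CuN A : ℝ) - t * N)| ≤ t' * (δ * N) := by
      rw [abs_mul, abs_of_pos t0]
      exact mul_le_mul_of_nonneg_left hA t0.le
    have h4 : c * N ≤ |(CuN B : ℝ) - t' * (N - CuN A)| := by
      rw [e2]
      have h5 := abs_sub_abs_le_abs_sub ((CuN B : ℝ) - t * N) (-(t' * ((CuN A : ℝ) - t * N)))
      rw [abs_neg, sub_neg_eq_add] at h5
      have h6 : c * N = δ * N - t' * (δ * N) := by rw [hc]; ring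
      rw [h6]
      linarith
    rw [← sq_abs ((CuN B : ℝ) - t' * (N - CuN A))]
    exact pow_le_pow_left₀ (by positivity) h4 2
  have hS : (∑ B ∈ univ.filter (fun B : Fin N → Bool => ¬ |(CuN B : ℝ) - t * N| ≤ δ * N),
      ∏ i, k i (B i)) * (c * N) ^ 2 ≤ N := by
    rw [Finset.sum_mul]
    refine (Finset.sum_le_sum hbad).trans ?_
    refine le_trans ?_ (hvar.le.trans hv2)
    apply Finset.sum_le_sum_of_subset_of_nonneg (Finset.filter_subset _ _)
    intro B _ _
    exact mul_nonneg (Finset.prod_nonneg fun i _ => k0 i _) (sq_nonneg _)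
  rw [Finset.sum_congr rfl fun B _ => hE B, ← Finset.mul_sum, mul_comm ε]
  apply mul_le_mul_of_nonneg_left _ hW
  have h5 : (N : ℝ) ≤ ε * (c * N) ^ 2 := by
    rw [div_le_iff₀ (by positivity)] at hN1
    have h6 := mul_le_mul_of_nonneg_right hN1 (show (0 : ℝ) ≤ N by positivity)
    calc (N : ℝ) = 1 * N := by ring
      _ ≤ N * (ε * c ^ 2) * N := h6
      _ = _ := by ring
  exact le_of_mul_le_mul_right (hS.trans h5) (by positivity)

end Pool.Agent.Helper38.FO
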